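import Pool.Agent.H95.Equi2

set_option autoImplicit false
open Pool.Agent.H95.Equi MeasureTheory

universe u

theorem Pool.Agent.Results.MP_5eb27c_an.Pack.result
    (G : Type u) [Group G] [TopologicalSpace G] [IsTopologicalGroup G] [LocallyCompactSpace G]
    [T2Space G] [MeasurableSpace G] [BorelSpace G]
    (μ : Measure G) [μ.IsHaarMeasure] [μ.OuterRegular]
    (E U : Set G) (hE : MeasurableSet E) (h0 : μ E = 0) (hU : IsOpen U) (hne : U.Nonempty) :
    ∃ F ⊆ U, CEquid E F :=
  Pool.Agent.H95.Equi.main μ hE h0 hU hne
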